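import Pool.Agent.Helper59.LUC.Goals

set_option autoImplicit false

namespace Pool.Agent.Helper59.LUC

namespace PkVB

theorem N_dvd {T M : ℤ} {η : ℂ} (h : Ctx T M η) {N : ℕ → ℕ} (hN : NN T M η N) (m p : ℕ)
    (hm : 0 < m) (hp : 2 ≤ p) (G : ℤ) (hG : W T M (m * p) = W T M m * G) :
    (N (m * p) : ℤ) ∣ G := by
  have hr : 0 < m * p := Nat.mul_pos hm (by omega)
  have hsub : m.divisors ⊆ (m * p).divisors :=
    Nat.divisors_subset_of_dvd hr.ne' (Dvd.intro p rfl)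
  have h1 := hN.prod (m * p) hr
  have h2 := hN.prod m hm
  rw [← Finset.prod_sdiff hsub, h2, hG, mul_comm] at h1
  have h3 : W T M m ≠ 0 := (h.W_pos hm).ne'
  have h4 := mul_left_cancel₀ h3 h1
  rw [← h4]
  apply Finset.dvd_prod_of_mem (fun d => (N d : ℤ))
  rw [Finset.mem_sdiff, Nat.mem_divisors, Nat.mem_divisors]
  refine ⟨⟨dvd_rfl, hr.ne'⟩, ?_⟩
  rintro ⟨h5, -⟩
  have h6 := Nat.le_of_dvd hm h5
  nlinarith

theorem W_two (T' μ : ℤ) : W T' μ 2 = (2 * μ - T') * (4 * μ - (2 * μ - T')) := by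
  have e2 : V T' (μ ^ 2) 2 = T' * V T' (μ ^ 2) 1 - μ ^ 2 * V T' (μ ^ 2) 0 := rfl
  have e1 : V T' (μ ^ 2) 1 = T' := rfl
  have e0 : V T' (μ ^ 2) 0 = 2 := rfl
  unfold W
  rw [e2, e1, e0]
  ring

theorem W_three (T' μ : ℤ) : W T' μ 3 = (2 * μ - T') * (3 * μ - (2 * μ - T')) ^ 2 := by
  have e3 : V T' (μ ^ 2) 3 = T' * V T' (μ ^ 2) 2 - μ ^ 2 * V T' (μ ^ 2) 1 := rfl
  have e2 : V T' (μ ^ 2) 2 = T' * V T' (μ ^ 2) 1 - μ ^ 2 * V T' (μ ^ 2) 0 := rfl
  have e1 : V T' (μ ^ 2) 1 = T' := rfl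
  have e0 : V T' (μ ^ 2) 0 = 2 := rfl
  unfold W
  rw [e3, e2, e1, e0]
  ring

theorem W_mul_two (hc : G_WC) (T M : ℤ) (m : ℕ) :
    W T M (m * 2) = W T M m * (4 * M ^ m - W T M m) := by
  rw [hc, W_two]; rfl

theorem W_mul_three (hc : G_WC) (T M : ℤ) (m : ℕ) :
    W T M (m * 3) = W T M m * (3 * M ^ m - W T M m) ^ 2 := by
  rw [hc, W_three]; rfl

theorem ex_rank (T M : ℤ) (p : ℕ) : ∃ o : ℕ, ∀ e : ℕ,
    (∀ n : ℕ, ((p : ℤ) ∣ W T M n ↔ e ∣ n)) → e = o := by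
  by_cases hex : ∃ o : ℕ, ∀ n : ℕ, ((p : ℤ) ∣ W T M n ↔ o ∣ n)
  · obtain ⟨o, ho⟩ := hex
    refine ⟨o, fun e he => ?_⟩
    apply Nat.dvd_antisymm
    · exact (he o).1 ((ho o).2 dvd_rfl)
    · exact (ho e).1 ((he e).2 dvd_rfl)
  · exact ⟨0, fun e he => (hex ⟨e, he⟩).elim⟩

theorem thm (h3 : G_RK3) (h4 : G_RK4) (hc : G_WC) (_hg : G_WG) (hp : G_WP) (_h1 : G_RK1) :
    G_VB := by
  intro T M η hctx N hN
  obtain ⟨o2, ho2⟩ := ex_rank T M 2
  obtain ⟨o3, ho3⟩ := ex_rank T M 3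
  refine ⟨4 * o2 + 3 * o3 + 1, ?_⟩
  intro r hr p hpp hpr hcube
  have hr1 : 1 ≤ r := by omega
  have hpN : p ∣ N r := (dvd_pow_self p (by norm_num)).trans hcube
  have hpM : ¬ (p : ℤ) ∣ M := fun hM => (h4 T M η hctx N hN r p hr1 hpp hM).2 hpN
  obtain ⟨e, t, he, ht, hret, hpe, hrk⟩ := h3 T M η hctx N hN r p hr1 hpp hpr hpM hpN
  obtain ⟨s, rfl⟩ : ∃ s, t = s + 1 := ⟨t - 1, by omega⟩
  set m := e * p ^ s with hm
  have hm0 : 0 < m := Nat.mul_pos he (pow_pos hpp.pos s)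
  have hrm : r = m * p := by rw [hret, hm, pow_succ, mul_assoc]
  have hcubeZ : (p : ℤ) ^ 3 ∣ (N (m * p) : ℤ) := by
    rw [← hrm]; exact_mod_cast hcube
  have hpW : (p : ℤ) ∣ W T M m := (hrk m).2 (Dvd.intro _ rfl)
  have hprime : Prime (p : ℤ) := Nat.prime_iff_prime_int.mp hpp
  have hpMn : ∀ n : ℕ, ¬ (p : ℤ) ∣ M ^ n := fun n hn => hpM (hprime.dvd_of_dvd_pow hn)
  rcases Nat.lt_or_ge p 5 with hlt | hge
  · have hp23 : p = 2 ∨ p = 3 := by
      have h2 := hpp.two_le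
      interval_cases p
      · exact Or.inl rfl
      · exact Or.inr rfl
      · exact absurd hpp (by norm_num)
    rcases hp23 with rfl | rfl
    · -- p = 2
      have hdv := N_dvd hctx hN m 2 hm0 le_rfl _ (W_mul_two hc T M m)
      have h8 : (8 : ℤ) ∣ 4 * M ^ m - W T M m := by
        have := hcubeZ.trans hdv
        norm_num at this
        exact this
      have heo := ho2 e hrk
      rcases Nat.lt_or_ge s 2 with hs | hs
      · -- exceptions
        have : r ≤ 4 * o2 := by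
          rw [hret, heo]
          have : (2 : ℕ) ^ (s + 1) ≤ 2 ^ 2 := Nat.pow_le_pow_right (by norm_num) (by omega)
          nlinarith
        omega
      · obtain ⟨u, rfl⟩ : ∃ u, s = u + 2 := ⟨s - 2, by omega⟩
        have hmu : m = e * 2 ^ u * 2 * 2 := by rw [hm]; ring
        have hW0 : (2 : ℤ) ∣ W T M (e * 2 ^ u) := by
          have := (hrk (e * 2 ^ u)).2 (Dvd.intro _ rfl)
          exact_mod_cast this
        obtain ⟨a, ha⟩ := hW0
        have hW1 : W T M (e * 2 ^ u * 2) = 4 * (a * (2 * M ^ (e * 2 ^ u) - a)) := by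
          rw [W_mul_two hc, ha]; ring
        set b := a * (2 * M ^ (e * 2 ^ u) - a) with hb
        have hW2 : W T M m = 8 * (2 * (b * (M ^ (e * 2 ^ u * 2) - b))) := by
          rw [hmu, W_mul_two hc, hW1]; ring
        have h8' : (8 : ℤ) ∣ 4 * M ^ m := by
          have h9 : (8 : ℤ) ∣ W T M m := ⟨_, hW2⟩
          have := dvd_add h8 h9
          simpa using this
        have h2M : (2 : ℤ) ∣ M ^ m := by
          obtain ⟨c, hc'⟩ := h8'
          exact ⟨c, by linarith⟩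
        exact hpMn m (by exact_mod_cast h2M)
    · -- p = 3
      have hdv := N_dvd hctx hN m 3 hm0 (by norm_num) _ (W_mul_three hc T M m)
      have h27 : (27 : ℤ) ∣ (3 * M ^ m - W T M m) ^ 2 := by
        have := hcubeZ.trans hdv
        norm_num at this
        exact this
      have heo := ho3 e hrk
      rcases Nat.lt_or_ge s 1 with hs | hs
      · have : r ≤ 3 * o3 := by
          have hs0 : s = 0 := by omega
          rw [hret, heo, hs0]
          omega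
        omega
      · obtain ⟨u, rfl⟩ : ∃ u, s = u + 1 := ⟨s - 1, by omega⟩
        have hmu : m = e * 3 ^ u * 3 := by rw [hm]; ring
        have hW0 : (3 : ℤ) ∣ W T M (e * 3 ^ u) := by
          have := (hrk (e * 3 ^ u)).2 (Dvd.intro _ rfl)
          exact_mod_cast this
        obtain ⟨a, ha⟩ := hW0
        have hW1 : W T M m = 9 * (3 * (a * (M ^ (e * 3 ^ u) - a) ^ 2)) := by
          rw [hmu, W_mul_three hc, ha]; ring
        obtain ⟨c, hc'⟩ := h27
        have h3M : (3 : ℤ) ∣ (M ^ m) ^ 2 := by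
          rw [hW1] at hc'
          set b := a * (M ^ (e * 3 ^ u) - a) ^ 2 with hb
          refine ⟨c - (-(6 * M ^ m * b) + 27 * b ^ 2), ?_⟩
          linarith [hc']
        have h3M' : (3 : ℤ) ∣ M ^ m := by
          have h33 : Prime (3 : ℤ) := Int.prime_three
          exact h33.dvd_of_dvd_pow h3M
        exact hpMn m (by exact_mod_cast h3M')
  · have hWm : 2 * M ^ m - V T (M ^ 2) m = W T M m := rfl
    obtain ⟨G, hG1, hG2⟩ := hp (V T (M ^ 2) m) (M ^ m) p hpp hge (by rw [hWm]; exact hpW) (hpMn m)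
    have hG : W T M (m * p) = W T M m * G := by rw [hc, hG1, hWm]
    exact hG2 (hcubeZ.trans (N_dvd hctx hN m p hm0 (by omega) G hG))

end PkVB

end Pool.Agent.Helper59.LUC
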